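import Pool.Agent.helper38.TA.SpecK

/-!
Project TA, row SEQ: sparse heights.
-/

set_option autoImplicit false

open Complex MeasureTheory Set Filter

namespace Pool.Agent.TA

open Pool.Agent.BA (Par GG kl kf vf fV Bw Den PP wt lam gpf rgz)
open Pool.Agent.ZT (fP Bn NN Cen GF hm Sqf cmf lamA muA prm Eta NwD Cof thC LaC LfC FEQ Prs)

/-- recursion: a sequence whose `k`-th term satisfies a condition depending on the earlier terms -/
theorem SEQ_rec (P : ℕ → (ℕ → ℝ) → ℝ → Prop)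
    (hex : ∀ (k : ℕ) (f : ℕ → ℝ), ∃ y, P k f y)
    (hcg : ∀ (k : ℕ) (f f' : ℕ → ℝ) (y : ℝ), (∀ j, j < k → f j = f' j) → P k f y → P k f' y) :
    ∃ t : ℕ → ℝ, t 0 = 0 ∧ ∀ k, 1 ≤ k → P k t (t k) := by
  choose g hg using hex
  let F : ℕ → (ℕ → ℝ) := fun N => Nat.rec (fun _ => (0 : ℝ)) (fun k f => Function.update f (k + 1) (g (k + 1) f)) N
  have hF0 : F 0 = fun _ => (0 : ℝ) := rfl
  have hFs : ∀ k, F (k + 1) = Function.update (F k) (k + 1) (g (k + 1) (F k)) := fun k => rfl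
  have hst : ∀ j m, F (j + m) j = F j j := by
    intro j m
    induction m with
    | zero => rfl
    | succ m ih =>
      have h1 : j + (m + 1) = (j + m) + 1 := by omega
      rw [h1, hFs, Function.update_of_ne (by omega), ih]
  refine ⟨fun k => F k k, ?_, ?_⟩
  · simp [hF0]
  · intro k hk
    obtain ⟨m, rfl⟩ : ∃ m, k = m + 1 := ⟨k - 1, by omega⟩
    have h1 : F (m + 1) (m + 1) = g (m + 1) (F m) := by
      rw [hFs]; simp
    have h2 := hg (m + 1) (F m)
    simp only [h1]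
    refine hcg (m + 1) (F m) _ _ ?_ h2
    intro j hj
    obtain ⟨d, rfl⟩ : ∃ d, m = j + d := ⟨m - j, by omega⟩
    exact hst j d

/-- Gaussian decay beats exponentials -/
theorem SEQ_tend (K s : ℝ) : Tendsto (fun y : ℝ => Real.exp (K * y - (s - y) ^ 2 / 2)) atTop (nhds 0) := by
  apply Real.tendsto_exp_atBot.comp
  have h1 : (fun y : ℝ => K * y - (s - y) ^ 2 / 2) = fun y : ℝ => -(y * (y / 2 - (K + s))) + -(s ^ 2 / 2) := by
    funext y; ring
  rw [h1]
  apply Tendsto.atBot_add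
  · apply tendsto_neg_atTop_atBot.comp
    apply Tendsto.atTop_mul_atTop₀ tendsto_id
    exact tendsto_atTop_add_const_right atTop (-(K + s)) (tendsto_id.atTop_div_const (by norm_num))
  · exact tendsto_const_nhds

/-- `(1+y)^a ≤ e^(|a| y)` -/
theorem SEQ_pow (a y : ℝ) (hy : 0 ≤ y) : (1 + y) ^ a ≤ Real.exp (|a| * y) := by
  have h1 : (1 + y) ^ a ≤ (1 + y) ^ |a| := Real.rpow_le_rpow_of_exponent_le (by linarith) (le_abs_self a)
  have h2 : (1 + y) ^ |a| ≤ (Real.exp y) ^ |a| :=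
    Real.rpow_le_rpow (by linarith) (by linarith [Real.add_one_le_exp y]) (abs_nonneg a)
  have h3 : (Real.exp y) ^ |a| = Real.exp (|a| * y) := by
    rw [← Real.exp_mul]; ring_nf
  linarith [h3.le, h3.ge]

/-- the weights -/
noncomputable def SEQ_W (n k : ℕ) (y : ℝ) : ℝ := if k = 0 then 1 else (1 + y) ^ ((n : ℝ) / 4 - n / (200 * k))

theorem SEQ_Wexp (n k : ℕ) (hk : 1 ≤ k) : 0 ≤ (n : ℝ) / 4 - n / (200 * k) := by
  have hk' : (1 : ℝ) ≤ k := by exact_mod_cast hk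
  have hn : (0 : ℝ) ≤ n := Nat.cast_nonneg n
  have : (n : ℝ) / (200 * k) ≤ n / 4 := by
    apply div_le_div_of_nonneg_left hn (by norm_num); linarith
  linarith

theorem SEQ_W1 (n k : ℕ) (y : ℝ) (hy : 0 ≤ y) : 1 ≤ SEQ_W n k y := by
  unfold SEQ_W
  split_ifs with h
  · exact le_rfl
  · exact Real.one_le_rpow (by linarith) (SEQ_Wexp n k (Nat.one_le_iff_ne_zero.mpr h))

theorem SEQ_Wle (n k : ℕ) (y : ℝ) (hy : 0 ≤ y) : SEQ_W n k y ≤ Real.exp (n * y) := by
  unfold SEQ_W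
  have hn : (0 : ℝ) ≤ n := Nat.cast_nonneg n
  split_ifs with h
  · exact Real.one_le_exp (by positivity)
  · have h0 := SEQ_Wexp n k (Nat.one_le_iff_ne_zero.mpr h)
    refine (SEQ_pow _ y hy).trans ?_
    apply Real.exp_le_exp.mpr
    rw [abs_of_nonneg h0]
    have h1 : (0 : ℝ) ≤ (n : ℝ) / (200 * k) := by positivity
    nlinarith

/-- two-sided bound for `gh` with constants depending on `μ` only -/
theorem SEQ_gh (hGGS : GGS_stmt) (n : ℕ) (μ : Fin n → ℝ) (hμ : Par 1 μ) :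
    ∃ c C K : ℝ, 0 < c ∧ 0 < C ∧ ∀ y : ℝ, 0 ≤ y → c * Real.exp (-(K * y)) ≤ gh μ y ∧ gh μ y ≤ C * Real.exp (K * y) := by
  obtain ⟨C, hC1, hC⟩ := hGGS n μ (1 / 2) hμ (by norm_num)
  set A : ℝ := (n * ((1 : ℝ) / 2 - 1) + ∑ j, μ j) / 2 with hA
  have hC0 : 0 < C := by linarith
  refine ⟨C⁻¹, C, |A| + Real.pi / 4 * n, by positivity, hC0, ?_⟩
  intro y hy
  have h := hC y
  have hcast : (((1 : ℝ) / 2 : ℝ) : ℂ) = (1 / 2 : ℂ) := by push_cast; rfl
  rw [hcast, abs_of_nonneg hy] at h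
  have hpi : 0 ≤ Real.pi / 4 * n := by positivity
  constructor
  · refine le_trans ?_ h.1
    apply mul_le_mul_of_nonneg_left _ (by positivity)
    have h1 : Real.exp (-(|A| * y)) ≤ (1 + y) ^ A := by
      have h2 := SEQ_pow (-A) y hy
      rw [abs_neg, Real.rpow_neg (by linarith)] at h2
      rw [Real.exp_neg]
      exact inv_le_of_inv_le₀ (Real.rpow_pos_of_pos (by linarith) _) h2
    calc Real.exp (-((|A| + Real.pi / 4 * n) * y)) = Real.exp (-(|A| * y)) * Real.exp (-(Real.pi / 4 * n * y)) := by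
          rw [← Real.exp_add]; ring_nf
      _ ≤ (1 + y) ^ A * Real.exp (-(Real.pi / 4 * n * y)) :=
          mul_le_mul_of_nonneg_right h1 (Real.exp_pos _).le
  · refine h.2.trans ?_
    apply mul_le_mul_of_nonneg_left _ hC0.le
    calc (1 + y) ^ A * Real.exp (-(Real.pi / 4 * n * y)) ≤ Real.exp (|A| * y) * Real.exp (Real.pi / 4 * n * y) := by
          apply mul_le_mul (SEQ_pow A y hy) _ (Real.exp_pos _).le (Real.exp_pos _).le
          apply Real.exp_le_exp.mpr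
          have : 0 ≤ Real.pi / 4 * n * y := by positivity
          linarith
      _ = Real.exp ((|A| + Real.pi / 4 * n) * y) := by rw [← Real.exp_add]; ring_nf

theorem SEQ_ghpos (hGGS : GGS_stmt) (n : ℕ) (μ : Fin n → ℝ) (hμ : Par 1 μ) (y : ℝ) (hy : 0 ≤ y) : 0 < gh μ y := by
  obtain ⟨c, C, K, hc, hC, h⟩ := SEQ_gh hGGS n μ hμ
  exact lt_of_lt_of_le (mul_pos hc (Real.exp_pos _)) (h y hy).1

/-- condition s2, both orders -/
theorem SEQ_B (hGGS : GGS_stmt) (n : ℕ) (μ : Fin n → ℝ) (hμ : Par 1 μ) (k : ℕ) (s Ws : ℝ) (hs : 0 ≤ s) (hW : 1 ≤ Ws) :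
    ∀ᶠ y : ℝ in atTop,
      2 * SEQ_W n k y * gh μ s * Real.exp (-(s - y) ^ 2 / 2) ≤ (1 / 4) ^ (k + 1) * Ws * gh μ y ∧
      2 * Ws * gh μ y * Real.exp (-(y - s) ^ 2 / 2) ≤ (1 / 4) ^ (k + 1) * SEQ_W n k y * gh μ s := by
  obtain ⟨c, C, K, hc, hC, h⟩ := SEQ_gh hGGS n μ hμ
  have hgs : 0 < gh μ s := SEQ_ghpos hGGS n μ hμ s hs
  have hq : (0 : ℝ) < (1 / 4) ^ (k + 1) := by positivity
  have e1 : ∀ᶠ y : ℝ in atTop, Real.exp ((n + K) * y - (s - y) ^ 2 / 2) ≤ (1 / 4) ^ (k + 1) * Ws * c / (2 * gh μ s) := by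
    have := SEQ_tend (n + K) s
    exact (this.eventually (ge_mem_nhds (by positivity))).mono fun y hy => hy
  have e2 : ∀ᶠ y : ℝ in atTop, Real.exp (K * y - (s - y) ^ 2 / 2) ≤ (1 / 4) ^ (k + 1) * gh μ s / (2 * Ws * C) := by
    have := SEQ_tend K s
    exact (this.eventually (ge_mem_nhds (by positivity))).mono fun y hy => hy
  filter_upwards [e1, e2, eventually_ge_atTop (0 : ℝ)] with y h1 h2 hy
  obtain ⟨hl, hu⟩ := h y hy
  have hWy := SEQ_Wle n k y hy
  have hWy1 := SEQ_W1 n k y hy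
  constructor
  · have hk1 : 2 * SEQ_W n k y * gh μ s * Real.exp (-(s - y) ^ 2 / 2) ≤
        2 * gh μ s * (Real.exp (n * y) * Real.exp (-(s - y) ^ 2 / 2)) := by
      have : SEQ_W n k y * Real.exp (-(s - y) ^ 2 / 2) ≤ Real.exp (n * y) * Real.exp (-(s - y) ^ 2 / 2) :=
        mul_le_mul_of_nonneg_right hWy (Real.exp_pos _).le
      nlinarith
    have hk2 : Real.exp (n * y) * Real.exp (-(s - y) ^ 2 / 2) =
        Real.exp ((n + K) * y - (s - y) ^ 2 / 2) * Real.exp (-(K * y)) := by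
      rw [← Real.exp_add, ← Real.exp_add]; ring_nf
    rw [hk2] at hk1
    have hk3 : 2 * gh μ s * (Real.exp ((n + K) * y - (s - y) ^ 2 / 2) * Real.exp (-(K * y))) ≤
        (1 / 4) ^ (k + 1) * Ws * (c * Real.exp (-(K * y))) := by
      have hE : 0 < Real.exp (-(K * y)) := Real.exp_pos _
      have h1' : 2 * gh μ s * Real.exp ((n + K) * y - (s - y) ^ 2 / 2) ≤ (1 / 4) ^ (k + 1) * Ws * c := by
        rw [le_div_iff₀ (by positivity)] at h1
        linarith
      nlinarith [mul_le_mul_of_nonneg_right h1' hE.le]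
    refine hk1.trans (hk3.trans ?_)
    exact mul_le_mul_of_nonneg_left hl (by positivity)
  · have hk1 : 2 * Ws * gh μ y * Real.exp (-(y - s) ^ 2 / 2) ≤
        2 * Ws * (C * Real.exp (K * y)) * Real.exp (-(y - s) ^ 2 / 2) := by
      apply mul_le_mul_of_nonneg_right _ (Real.exp_pos _).le
      exact mul_le_mul_of_nonneg_left hu (by positivity)
    have hk2 : 2 * Ws * (C * Real.exp (K * y)) * Real.exp (-(y - s) ^ 2 / 2) =
        2 * Ws * C * Real.exp (K * y - (s - y) ^ 2 / 2) := by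
      have : Real.exp (K * y) * Real.exp (-(y - s) ^ 2 / 2) = Real.exp (K * y - (s - y) ^ 2 / 2) := by
        rw [← Real.exp_add]; ring_nf
      rw [← this]; ring
    rw [hk2] at hk1
    have h2' : 2 * Ws * C * Real.exp (K * y - (s - y) ^ 2 / 2) ≤ (1 / 4) ^ (k + 1) * gh μ s := by
      rw [le_div_iff₀ (by positivity)] at h2
      linarith
    refine hk1.trans (h2'.trans ?_)
    have : (1 / 4 : ℝ) ^ (k + 1) * gh μ s * 1 ≤ (1 / 4) ^ (k + 1) * gh μ s * SEQ_W n k y :=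
      mul_le_mul_of_nonneg_left hWy1 (by positivity)
    linarith

/-- condition s1 for `k ≥ 1` -/
theorem SEQ_A (hPHB : PHB_stmt) (hBNE : BNE_stmt) (n : ℕ) (μ : Fin n → ℝ) (hμ : Par 1 μ) (k : ℕ) (hk : 1 ≤ k) :
    ∀ᶠ y : ℝ in atTop, ∀ L x : ℝ, 1 ≤ L → 0 < x →
      SEQ_W n k y * |ph μ y x| ≤ (1 / 2) ^ k * gh μ y * Bn n L x := by
  have hk' : (1 : ℝ) ≤ k := by exact_mod_cast hk
  have hn1 : (1 : ℝ) ≤ n := by exact_mod_cast hμ.1
  set η : ℝ := 1 / (200 * k) with hη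
  have hη0 : 0 < η := by positivity
  have hη1 : η ≤ 1 / 200 := by
    rw [hη]; apply div_le_div_of_nonneg_left (by norm_num) (by norm_num); linarith
  obtain ⟨C, hC0, hC⟩ := (hPHB n μ hμ).2 η hη0 (by linarith)
  obtain ⟨C', hC'0, hC'⟩ := hBNE n η hη0 (by linarith)
  have e1 : ∀ᶠ y : ℝ in atTop, (1 + y) ^ (-((n : ℝ) / (400 * k))) ≤ (1 / 2) ^ k / (C * C') := by
    have h1 : Tendsto (fun y : ℝ => (1 + y) ^ (-((n : ℝ) / (400 * k)))) atTop (nhds 0) := by
      apply (tendsto_rpow_neg_atTop (by positivity)).comp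
      exact tendsto_atTop_add_const_left atTop 1 tendsto_id
    exact (h1.eventually (ge_mem_nhds (by positivity))).mono fun y hy => hy
  filter_upwards [e1, eventually_ge_atTop (0 : ℝ)] with y h1 hy L x hL hx
  have hp := hC y x hy hx
  have hb := hC' L x hL hx
  have hW : SEQ_W n k y = (1 + y) ^ ((n : ℝ) / 4 - n / (200 * k)) := by
    unfold SEQ_W; rw [if_neg (by omega)]
  have hgh : 0 ≤ gh μ y := norm_nonneg _
  have hW0 : 0 ≤ SEQ_W n k y := by rw [hW]; positivity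
  have hBn : 0 ≤ Bn n L x := by
    have : 0 ≤ x ^ (-η) := by positivity
    nlinarith
  have h2 : SEQ_W n k y * (1 + y) ^ (-(n * (1 / 2 - η) / 2) : ℝ) = (1 + y) ^ (-((n : ℝ) / (400 * k))) := by
    rw [hW, ← Real.rpow_add (by linarith)]
    congr 1
    rw [hη]; field_simp; ring
  calc SEQ_W n k y * |ph μ y x| ≤ SEQ_W n k y * (C * (1 + y) ^ (-(n * (1 / 2 - η) / 2) : ℝ) * gh μ y * x ^ (-η)) :=
        mul_le_mul_of_nonneg_left hp hW0
    _ = (C * gh μ y * (SEQ_W n k y * (1 + y) ^ (-(n * (1 / 2 - η) / 2) : ℝ))) * x ^ (-η) := by ring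
    _ = (C * gh μ y * (1 + y) ^ (-((n : ℝ) / (400 * k)))) * x ^ (-η) := by rw [h2]
    _ ≤ (C * gh μ y * (1 + y) ^ (-((n : ℝ) / (400 * k)))) * (C' * Bn n L x) :=
        mul_le_mul_of_nonneg_left hb (by positivity)
    _ = gh μ y * Bn n L x * (C * C' * (1 + y) ^ (-((n : ℝ) / (400 * k)))) := by ring
    _ ≤ gh μ y * Bn n L x * (1 / 2) ^ k := by
        apply mul_le_mul_of_nonneg_left _ (by positivity)
        rw [le_div_iff₀ (by positivity)] at h1
        linarith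
    _ = (1 / 2) ^ k * gh μ y * Bn n L x := by ring

theorem SEQ (hGGS : GGS_stmt) (hPHB : PHB_stmt) (hBNE : BNE_stmt) : SEQ_stmt := by
  intro ι _ n μ hμ
  -- the condition for the recursion
  let P : ℕ → (ℕ → ℝ) → ℝ → Prop := fun k f y => (k : ℝ) ≤ y ∧ (1 ≤ k → (∀ j, j < k → 0 ≤ f j) →
    (∀ j, j < k → f j < y) ∧
    (∀ i : ι, ∀ L x : ℝ, 1 ≤ L → 0 < x → SEQ_W n k y * |ph (μ i) y x| ≤ (1 / 2) ^ k * gh (μ i) y * Bn n L x) ∧
    ∀ j, j < k → ∀ i : ι,
      2 * SEQ_W n k y * gh (μ i) (f j) * Real.exp (-(f j - y) ^ 2 / 2) ≤ (1 / 4) ^ (k + 1) * SEQ_W n j (f j) * gh (μ i) y ∧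
      2 * SEQ_W n j (f j) * gh (μ i) y * Real.exp (-(y - f j) ^ 2 / 2) ≤ (1 / 4) ^ (k + 1) * SEQ_W n k y * gh (μ i) (f j))
  have hex : ∀ (k : ℕ) (f : ℕ → ℝ), ∃ y, P k f y := by
    intro k f
    by_cases hk : 1 ≤ k
    · by_cases hf : ∀ j, j < k → 0 ≤ f j
      · have e0 : ∀ᶠ y : ℝ in atTop, (k : ℝ) ≤ y := eventually_ge_atTop _
        have e1 : ∀ᶠ y : ℝ in atTop, ∀ j ∈ Finset.range k, f j < y := by
          rw [Filter.eventually_all_finset]
          intro j _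
          exact eventually_gt_atTop _
        have e2 : ∀ᶠ y : ℝ in atTop, ∀ i : ι, ∀ L x : ℝ, 1 ≤ L → 0 < x →
            SEQ_W n k y * |ph (μ i) y x| ≤ (1 / 2) ^ k * gh (μ i) y * Bn n L x := by
          rw [Filter.eventually_all]
          intro i
          exact SEQ_A hPHB hBNE n (μ i) (hμ i) k hk
        have e3 : ∀ᶠ y : ℝ in atTop, ∀ j ∈ Finset.range k, ∀ i : ι,
            2 * SEQ_W n k y * gh (μ i) (f j) * Real.exp (-(f j - y) ^ 2 / 2) ≤ (1 / 4) ^ (k + 1) * SEQ_W n j (f j) * gh (μ i) y ∧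
            2 * SEQ_W n j (f j) * gh (μ i) y * Real.exp (-(y - f j) ^ 2 / 2) ≤ (1 / 4) ^ (k + 1) * SEQ_W n k y * gh (μ i) (f j) := by
          rw [Filter.eventually_all_finset]
          intro j hj
          rw [Filter.eventually_all]
          intro i
          have hfj := hf j (Finset.mem_range.mp hj)
          exact SEQ_B hGGS n (μ i) (hμ i) k (f j) (SEQ_W n j (f j)) hfj (SEQ_W1 n j (f j) hfj)
        obtain ⟨y, h0, h1, h2, h3⟩ := (e0.and (e1.and (e2.and e3))).exists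
        exact ⟨y, h0, fun _ _ => ⟨fun j hj => h1 j (Finset.mem_range.mpr hj), h2,
          fun j hj => h3 j (Finset.mem_range.mpr hj)⟩⟩
      · exact ⟨k, le_rfl, fun _ h => absurd h hf⟩
    · exact ⟨k, le_rfl, fun h => absurd h hk⟩
  have hcg : ∀ (k : ℕ) (f f' : ℕ → ℝ) (y : ℝ), (∀ j, j < k → f j = f' j) → P k f y → P k f' y := by
    intro k f f' y hff hP
    refine ⟨hP.1, fun hk hf' => ?_⟩
    have hf : ∀ j, j < k → 0 ≤ f j := fun j hj => by rw [hff j hj]; exact hf' j hj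
    obtain ⟨h1, h2, h3⟩ := hP.2 hk hf
    refine ⟨fun j hj => by rw [← hff j hj]; exact h1 j hj, h2, fun j hj i => ?_⟩
    rw [← hff j hj]
    exact h3 j hj i
  obtain ⟨t, ht0, ht⟩ := SEQ_rec P hex hcg
  have htk : ∀ k : ℕ, (k : ℝ) ≤ t k := by
    intro k
    rcases Nat.eq_zero_or_pos k with rfl | hk
    · rw [ht0]; simp
    · exact (ht k hk).1
  have htn : ∀ k : ℕ, 0 ≤ t k := fun k => le_trans (Nat.cast_nonneg k) (htk k)
  have hful := fun (k : ℕ) (hk : 1 ≤ k) => (ht k hk).2 hk (fun j _ => htn j)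
  refine ⟨t, fun k => SEQ_W n k (t k), htk, ?_, ?_, ?_, ?_⟩
  · apply strictMono_nat_of_lt_succ
    intro k
    exact (hful (k + 1) (by omega)).1 k (by omega)
  · simp [SEQ_W]
  · intro k hk
    simp only [SEQ_W]
    rw [if_neg (by omega)]
  · intro i
    obtain ⟨C, hC0, hC⟩ := (hPHB n (μ i) (hμ i)).2 (1 / 20) (by norm_num) (by norm_num)
    obtain ⟨C', hC'0, hC'⟩ := hBNE n (1 / 20) (by norm_num) le_rfl
    refine ⟨max 1 (C * C'), ⟨ht0, htn, fun k => SEQ_W1 n k (t k) (htn k), by positivity, ?_, ?_⟩⟩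
    · intro k L x hL hx
      have hBn : 0 ≤ Bn n L x := by
        have h1 := hC' L x hL hx
        have : 0 ≤ x ^ (-(1 / 20) : ℝ) := by positivity
        nlinarith
      have hgh : 0 ≤ gh (μ i) (t k) := norm_nonneg _
      rcases Nat.eq_zero_or_pos k with rfl | hk
      · have h1 := hC (t 0) x (htn 0) hx
        have h2 := hC' L x hL hx
        have hW0 : SEQ_W n 0 (t 0) = 1 := by simp [SEQ_W]
        have h3 : (1 + t 0) ^ (-(n * (1 / 2 - 1 / 20) / 2) : ℝ) = 1 := by rw [ht0]; simp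
        rw [h3] at h1
        simp only [hW0, one_mul, pow_zero, mul_one]
        calc |ph (μ i) (t 0) x| ≤ C * 1 * gh (μ i) (t 0) * x ^ (-(1 / 20) : ℝ) := h1
          _ ≤ C * 1 * gh (μ i) (t 0) * (C' * Bn n L x) := mul_le_mul_of_nonneg_left h2 (by positivity)
          _ = (C * C') * (gh (μ i) (t 0) * Bn n L x) := by ring
          _ ≤ max 1 (C * C') * (gh (μ i) (t 0) * Bn n L x) :=
              mul_le_mul_of_nonneg_right (le_max_right _ _) (by positivity)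
          _ = max 1 (C * C') * gh (μ i) (t 0) * Bn n L x := by ring
      · have h1 := (hful k hk).2.1 i L x hL hx
        refine h1.trans ?_
        have h2 : (1 / 2 : ℝ) ^ k * gh (μ i) (t k) * Bn n L x * 1 ≤
            (1 / 2 : ℝ) ^ k * gh (μ i) (t k) * Bn n L x * max 1 (C * C') :=
          mul_le_mul_of_nonneg_left (le_max_left _ _) (by positivity)
        nlinarith
    · intro j k hjk
      rcases lt_or_gt_of_ne hjk with h | h
      · have h1 := ((hful k (by omega)).2.2 j h i).1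
        rw [max_eq_right h.le]
        exact h1
      · have h1 := ((hful j (by omega)).2.2 k h i).2
        rw [max_eq_left h.le]
        exact h1

end Pool.Agent.TA
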